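import Mathlib
import Pool.Agent.Lib.MP_39b545_nt.Half.PrimesAP

/-!
MP_ed29f8_nt: in the admissible pairs `(k, m)` of almost all `n`, the number `k` exceeds any given
bound.

Proof.  Fix `k` and put `l = p_(T_k)`.  If `m` has a prime factor `p = 1 (mod l)`, then `l` divides
`p - 1`, hence `φ(m)`, and `l + φ(m)` is a proper multiple of `l`.  As the sum of the reciprocals
of the primes `p = 1 (mod l)` diverges, almost all `m` have such a prime factor.
-/

set_option autoImplicit false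

namespace Pool.Agent.Results.MP_ed29f8_nt.SmallIndices

open Finset

/-- The `j`-th prime: `pr 1 = 2`, `pr 2 = 3`, ... -/
noncomputable def pr (j : ℕ) : ℕ := Nat.nth Nat.Prime (j - 1)

/-- The triangular number `T_k`. -/
def tri (k : ℕ) : ℕ := k * (k + 1) / 2

/-- `(k, m)` is an admissible pair for `n`. -/
def Admissible (n k m : ℕ) : Prop :=
  0 < k ∧ 0 < m ∧ n = tri k + m ∧ (pr (tri k) + Nat.totient m).Prime

theorem pr_prime (j : ℕ) : (pr j).Prime := Nat.prime_nth_prime _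

theorem not_prime_of_dvd {l p m : ℕ} (hl : l.Prime) (hm : 0 < m) (hpm : p ∣ m) (hp : p.Prime)
    (hlp : l ∣ p - 1) : ¬ (l + Nat.totient m).Prime := by
  intro h
  have h1 : l ∣ Nat.totient m := by
    have h2 : Nat.totient p ∣ Nat.totient m := Nat.totient_dvd_of_dvd hpm
    rw [Nat.totient_prime hp] at h2
    exact hlp.trans h2
  have h3 : l ∣ l + Nat.totient m := (Nat.dvd_add_right (dvd_refl l)).2 h1
  have h4 := (Nat.prime_dvd_prime_iff_eq hl h).1 h3
  have h5 : 0 < Nat.totient m := Nat.totient_pos.2 hm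
  omega

theorem one_class (k : ℕ) (δ : ℝ) (hδ : 0 < δ) : ∃ Q : ℕ, ∀ N : ℕ,
    open Classical in
    (((Icc 1 N).filter (fun n => ∃ m, Admissible n k m)).card : ℝ) ≤ δ * N + Q := by
  classical
  obtain ⟨P, hP, hR⟩ := Pool.Agent.Lib.MP_39b545_nt.Half.exists_primes (pr (tri k))
    (pr_prime _).pos (-Real.log δ)
  set Q : ℕ := ∏ p ∈ P, p with hQ
  have hQ0 : 0 < Q := prod_pos fun p hp => (hP p hp).1.pos
  have hpf : Q.primeFactors = P := by
    rw [hQ]
    exact Nat.primeFactors_prod fun p hp => (hP p hp).1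
  have hphi : (Nat.totient Q : ℝ) ≤ δ * Q := by
    have h1 := Nat.totient_eq_mul_prod_factors Q
    have h2 : (Nat.totient Q : ℝ) = Q * ∏ p ∈ P, (1 - (p : ℝ)⁻¹) := by
      rw [hpf] at h1
      have h1' : ((Nat.totient Q : ℚ) : ℝ) = ((Q * ∏ p ∈ P, (1 - (p : ℚ)⁻¹) : ℚ) : ℝ) := by
        rw [h1]
      push_cast at h1'
      exact h1'
    have h3 : ∏ p ∈ P, (1 - (p : ℝ)⁻¹) ≤ δ := by
      have h4 : ∏ p ∈ P, (1 - (p : ℝ)⁻¹) ≤ ∏ p ∈ P, Real.exp (-(1 / (p : ℝ))) := by
        apply prod_le_prod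
        · intro p hp
          have h5 : (1 : ℝ) ≤ p := by exact_mod_cast (hP p hp).1.one_le
          have h6 : (p : ℝ)⁻¹ ≤ 1 := inv_le_one_of_one_le₀ h5
          linarith
        · intro p _
          have := Real.add_one_le_exp (-(1 / (p : ℝ)))
          rw [one_div] at this ⊢
          linarith
      rw [← Real.exp_sum, sum_neg_distrib] at h4
      refine h4.trans ?_
      have h7 : Real.exp (-∑ p ∈ P, (1 / (p : ℝ))) ≤ Real.exp (Real.log δ) := by
        apply Real.exp_le_exp.2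
        linarith
      rwa [Real.exp_log hδ] at h7
    rw [h2, mul_comm δ]
    exact mul_le_mul_of_nonneg_left h3 (Nat.cast_nonneg _)
  refine ⟨Nat.totient Q, fun N => ?_⟩
  have hcard : ((Icc 1 N).filter (fun n => ∃ m, Admissible n k m)).card ≤
      ((Ico 1 (1 + N)).filter (fun x => Q.Coprime x)).card := by
    apply card_le_card_of_injOn (fun n => n - tri k)
    · intro n hn
      rw [mem_coe, mem_filter, mem_Icc] at hn
      obtain ⟨⟨h1, h2⟩, m, hk, hm, hnm, hpm⟩ := hn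
      rw [mem_coe, mem_filter, mem_Ico]
      have h3 : n - tri k = m := by omega
      show (1 ≤ n - tri k ∧ n - tri k < 1 + N) ∧ Q.Coprime (n - tri k)
      rw [h3]
      refine ⟨⟨by omega, by omega⟩, ?_⟩
      rw [hQ, Nat.coprime_prod_left_iff]
      intro p hp
      rw [Nat.Prime.coprime_iff_not_dvd (hP p hp).1]
      intro hpd
      exact not_prime_of_dvd (pr_prime _) hm hpd (hP p hp).1 (hP p hp).2 hpm
    · intro n hn n' hn' h
      rw [mem_coe, mem_filter, mem_Icc] at hn hn'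
      obtain ⟨-, m, -, hm, hnm, -⟩ := hn
      obtain ⟨-, m', -, hm', hnm', -⟩ := hn'
      simp only at h
      omega
  have h8 := Nat.Ico_filter_coprime_le 1 N hQ0.ne'
  have h9 : (((Icc 1 N).filter (fun n => ∃ m, Admissible n k m)).card : ℝ) ≤
      (Nat.totient Q : ℝ) * ((N / Q : ℕ) + 1) := by
    exact_mod_cast hcard.trans h8
  refine h9.trans ?_
  have h10 : ((N / Q : ℕ) : ℝ) ≤ (N : ℝ) / Q := Nat.cast_div_le
  have hQr : (0 : ℝ) < Q := by exact_mod_cast hQ0
  have h11 : (Nat.totient Q : ℝ) * ((N / Q : ℕ) : ℝ) ≤ δ * N := by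
    calc (Nat.totient Q : ℝ) * ((N / Q : ℕ) : ℝ) ≤ (δ * Q) * ((N : ℝ) / Q) :=
          mul_le_mul hphi h10 (Nat.cast_nonneg _) (by positivity)
      _ = δ * N := by field_simp
  rw [mul_add, mul_one]
  linarith

open Classical in
/-- For every bound `K` and every `ε > 0`, all but at most `ε N` of the `n ≤ N` have no admissible
pair `(k, m)` with `k ≤ K`, if `N` is large. -/
theorem result (K : ℕ) (ε : ℝ) (hε : 0 < ε) : ∃ N₀ : ℕ, ∀ N : ℕ, N₀ ≤ N →
    (((Icc 1 N).filter (fun n => ∃ k m, k ≤ K ∧ Admissible n k m)).card : ℝ) ≤ ε * N := by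
  have hδ : 0 < ε / (2 * (K + 1)) := by positivity
  choose Q hQ using fun k => one_class k (ε / (2 * (K + 1))) hδ
  obtain ⟨N₀, hN₀⟩ := exists_nat_ge ((∑ k ∈ range (K + 1), (Q k : ℝ)) * (2 / ε))
  refine ⟨N₀, fun N hN => ?_⟩
  have hsub : (Icc 1 N).filter (fun n => ∃ k m, k ≤ K ∧ Admissible n k m) ⊆
      (range (K + 1)).biUnion (fun k => (Icc 1 N).filter (fun n => ∃ m, Admissible n k m)) := by
    intro n hn
    rw [mem_filter] at hn
    obtain ⟨h1, k, m, hk, hA⟩ := hn
    rw [mem_biUnion]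
    exact ⟨k, mem_range.2 (by omega), mem_filter.2 ⟨h1, m, hA⟩⟩
  have h1 : (((Icc 1 N).filter (fun n => ∃ k m, k ≤ K ∧ Admissible n k m)).card : ℝ) ≤
      ∑ k ∈ range (K + 1), (((Icc 1 N).filter (fun n => ∃ m, Admissible n k m)).card : ℝ) := by
    exact_mod_cast (card_le_card hsub).trans card_biUnion_le
  have h2 : ∑ k ∈ range (K + 1), (((Icc 1 N).filter (fun n => ∃ m, Admissible n k m)).card : ℝ) ≤
      ∑ k ∈ range (K + 1), (ε / (2 * (K + 1)) * N + Q k) := sum_le_sum fun k _ => hQ k N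
  have h3 : ∑ k ∈ range (K + 1), (ε / (2 * (K + 1)) * N + (Q k : ℝ)) =
      ε / 2 * N + ∑ k ∈ range (K + 1), (Q k : ℝ) := by
    rw [sum_add_distrib, sum_const, card_range, nsmul_eq_mul]
    push_cast
    field_simp
  have h4 : ∑ k ∈ range (K + 1), (Q k : ℝ) ≤ ε / 2 * N := by
    have h5 : (N₀ : ℝ) ≤ N := by exact_mod_cast hN
    have h6 := hN₀.trans h5
    have h7 : (∑ k ∈ range (K + 1), (Q k : ℝ)) * (2 / ε) * (ε / 2) ≤ N * (ε / 2) :=
      mul_le_mul_of_nonneg_right h6 (by positivity)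
    have h8 : (∑ k ∈ range (K + 1), (Q k : ℝ)) * (2 / ε) * (ε / 2) =
        ∑ k ∈ range (K + 1), (Q k : ℝ) := by field_simp
    rw [h8] at h7
    linarith
  linarith

end Pool.Agent.Results.MP_ed29f8_nt.SmallIndices
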