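import Mathlib

/-!
# Infinitely many n all of whose admissible pairs have a large index k

There is a constant `c > 0` such that every interval `[x, 2 x]` with `x` large contains an `n` such
that `k ≥ c log n / log log n` for every admissible pair `(k, m)` of `n`.  Proof: by the Chinese remainder theorem let `n` be congruent to
`T_k` modulo `p_(T_k) ^ 2` for all `k ≤ K`; then `p_(T_k)` divides `φ(n - T_k)`.
-/

set_option autoImplicit false

namespace Pool.Agent.Results.MP_ed29f8_nt.VeryLate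

open Finset

/-- the `j`-th prime, `pr 1 = 2` -/
noncomputable def pr (j : ℕ) : ℕ := Nat.nth Nat.Prime (j - 1)

/-- the `k`-th triangular number -/
def T (k : ℕ) : ℕ := k * (k + 1) / 2

/-- the pair `(k, m)` is admissible for `n` -/
def Admissible (n k m : ℕ) : Prop :=
  0 < k ∧ 0 < m ∧ n = T k + m ∧ (pr (T k) + Nat.totient m).Prime

theorem pr_prime (j : ℕ) : (pr j).Prime := Nat.prime_nth_prime _

theorem not_prime_of_sq_dvd {p m : ℕ} (hp : p.Prime) (hm : 0 < m) (h : p ^ 2 ∣ m) :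
    ¬ (p + Nat.totient m).Prime := by
  intro hq
  have h0 : p ∣ Nat.totient m := by
    have h4 : Nat.totient (p ^ 2) ∣ Nat.totient m := Nat.totient_dvd_of_dvd h
    rw [Nat.totient_prime_pow hp (by norm_num)] at h4
    have h5 : p ∣ p ^ (2 - 1) * (p - 1) := ⟨p - 1, by norm_num⟩
    exact h5.trans h4
  have h1 : p ∣ p + Nat.totient m := Nat.dvd_add (dvd_refl p) h0
  rcases (Nat.dvd_prime hq).mp h1 with h2 | h2
  · exact hp.one_lt.ne' h2
  · have := Nat.totient_pos.mpr hm
    omega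

/-- a weak form of Chebyshev's bound -/
theorem pr_le (j : ℕ) (hj : 1 ≤ j) : (pr j : ℝ) ≤ 9 * ((j : ℝ) + 1) ^ 2 := by
  set p := pr j with hp
  have hpp : p.Prime := pr_prime j
  have hp2 : (2 : ℝ) ≤ p := by exact_mod_cast hpp.two_le
  have hpi : Nat.primeCounting p = j := by
    rw [hp, pr, Nat.primeCounting, Nat.primeCounting', Nat.count_succ, Nat.count_nth_of_infinite
      Nat.infinite_setOfPred_prime, if_pos (Nat.prime_nth_prime _)]
    omega
  have h1 := Chebyshev.pi_ge p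
  rw [hpi] at h1
  have hlog : 0 < Real.log p := Real.log_pos (by linarith)
  rw [div_le_iff₀ hlog] at h1
  set s := Real.sqrt p with hs
  have hss : s * s = p := Real.mul_self_sqrt (by linarith)
  have hs0 : 0 < s := Real.sqrt_pos.mpr (by linarith)
  have h2 : Real.log p ≤ 2 * s := by
    have : Real.log p = 2 * Real.log s := by
      rw [← hss, Real.log_mul hs0.ne' hs0.ne']; ring
    rw [this]
    have := Real.log_le_sub_one_of_pos hs0
    linarith
  have h3 : Real.log ((p : ℝ) + 1) ≤ 2 * s := by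
    have h4 : (p : ℝ) + 1 ≤ (s + 1) * (s + 1) := by nlinarith
    have h5 : Real.log ((p : ℝ) + 1) ≤ Real.log ((s + 1) * (s + 1)) :=
      Real.log_le_log (by linarith) h4
    rw [Real.log_mul (by positivity) (by positivity)] at h5
    have := Real.log_le_sub_one_of_pos (show (0 : ℝ) < s + 1 by positivity)
    linarith
  have hl2 : (2 : ℝ) / 3 < Real.log 2 := by
    have := Real.log_two_gt_d9
    norm_num at this ⊢
    linarith
  have hj0 : (0 : ℝ) ≤ j := Nat.cast_nonneg j
  have h6 : s * (2 / 3) ≤ 2 * ((j : ℝ) + 1) := by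
    have h7 : (p : ℝ) * Real.log 2 ≤ j * (2 * s) + 2 * s := by
      have := mul_le_mul_of_nonneg_left h2 hj0
      linarith
    have h8 : s * (s * (2 / 3)) ≤ s * (2 * ((j : ℝ) + 1)) := by
      have : (p : ℝ) * (2 / 3) ≤ p * Real.log 2 := mul_le_mul_of_nonneg_left hl2.le (by linarith)
      nlinarith
    exact le_of_mul_le_mul_left h8 hs0
  have h9 : s ≤ 3 * ((j : ℝ) + 1) := by linarith
  calc (p : ℝ) = s * s := hss.symm
    _ ≤ (3 * ((j : ℝ) + 1)) * (3 * ((j : ℝ) + 1)) := mul_self_le_mul_self hs0.le h9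
    _ = 9 * ((j : ℝ) + 1) ^ 2 := by ring

theorem T_lt {a b : ℕ} (h : a < b) : T a < T b := by
  unfold T
  have h1 : a * (a + 1) + 2 ≤ b * (b + 1) := by nlinarith
  omega

theorem T_pos {k : ℕ} (h : 1 ≤ k) : 1 ≤ T k := by
  unfold T
  have : 2 ≤ k * (k + 1) := by nlinarith
  omega

theorem T_le (k : ℕ) (h : 1 ≤ k) : T k ≤ k ^ 2 := by
  unfold T
  have : k * (k + 1) ≤ 2 * k ^ 2 := by nlinarith
  omega

theorem pr_inj {a b : ℕ} (ha : 1 ≤ a) (hb : 1 ≤ b) (h : pr a = pr b) : a = b := by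
  have := Nat.nth_injective Nat.infinite_setOfPred_prime h
  omega

/-- the modulus -/
noncomputable def M (K : ℕ) : ℕ := ∏ k ∈ Icc 1 K, pr (T k) ^ 2

theorem exists_n (K x : ℕ) : ∃ n : ℕ, x ≤ n ∧ n < x + M K ∧
    ∀ k m, Admissible n k m → K < k := by
  have hco : Set.Pairwise (↑(Icc 1 K) : Set ℕ)
      (Function.onFun Nat.Coprime fun k => pr (T k) ^ 2) := by
    intro a ha b hb hab
    have ha1 := (Finset.mem_Icc.mp (Finset.mem_coe.mp ha)).1
    have hb1 := (Finset.mem_Icc.mp (Finset.mem_coe.mp hb)).1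
    refine Nat.Coprime.pow 2 2 ?_
    rw [Nat.coprime_primes (pr_prime _) (pr_prime _)]
    intro h
    have h1 := pr_inj (T_pos ha1) (T_pos hb1) h
    rcases lt_or_gt_of_ne hab with h2 | h2
    · exact (T_lt h2).ne h1
    · exact (T_lt h2).ne' h1
  have hne : ∀ k ∈ Icc 1 K, pr (T k) ^ 2 ≠ 0 := fun k _ => pow_ne_zero _ (pr_prime _).ne_zero
  set r := Nat.chineseRemainderOfFinset (fun k => T k) (fun k => pr (T k) ^ 2) (Icc 1 K) hne hco
    with hr
  have hM : 0 < M K := Finset.prod_pos fun k _ => pow_pos (pr_prime _).pos _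
  have hxM : x ≤ M K * x := Nat.le_mul_of_pos_left x hM
  have hnr : x + ((r : ℕ) + M K * x - x) % M K ≡ r [MOD M K] := by
    have e1 : x + ((r : ℕ) + M K * x - x) % M K ≡ x + ((r : ℕ) + M K * x - x) [MOD M K] :=
      Nat.ModEq.add_left x (Nat.mod_modEq _ _)
    have e2 : x + ((r : ℕ) + M K * x - x) = (r : ℕ) + M K * x := by omega
    rw [e2] at e1
    refine e1.trans ?_
    have e3 : (r : ℕ) + M K * x ≡ r + 0 [MOD M K] :=
      Nat.ModEq.add_left _ ((Nat.modEq_zero_iff_dvd).mpr (dvd_mul_right _ _))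
    simpa using e3
  refine ⟨x + ((r : ℕ) + M K * x - x) % M K, by omega,
    Nat.add_lt_add_left (Nat.mod_lt _ hM) x, ?_⟩
  rintro k m ⟨hk, hm, hn, hq⟩
  by_contra hle
  have hkK : k ∈ Icc 1 K := Finset.mem_Icc.mpr ⟨hk, by omega⟩
  have h1 : (r : ℕ) ≡ T k [MOD pr (T k) ^ 2] := r.2 k hkK
  have h2 : pr (T k) ^ 2 ∣ M K := Finset.dvd_prod_of_mem (fun k => pr (T k) ^ 2) hkK
  have h3 : x + ((r : ℕ) + M K * x - x) % M K ≡ T k [MOD pr (T k) ^ 2] :=
    (hnr.of_dvd h2).trans h1
  have h4 : pr (T k) ^ 2 ∣ m := by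
    have h5 : T k ≡ T k + m [MOD pr (T k) ^ 2] := by
      rw [← hn]; exact h3.symm
    have h6 : 0 ≡ m [MOD pr (T k) ^ 2] := by
      have : T k + 0 ≡ T k + m [MOD pr (T k) ^ 2] := by simpa using h5
      exact Nat.ModEq.add_left_cancel' (T k) this
    exact (Nat.modEq_zero_iff_dvd).mp h6.symm
  exact not_prime_of_sq_dvd (pr_prime _) hm h4 hq

theorem four_pow_le (K : ℕ) : 4 ^ K ≤ M K := by
  unfold M
  have h1 : ∏ _k ∈ Icc 1 K, 4 = 4 ^ K := by simp
  rw [← h1]
  refine Finset.prod_le_prod' (fun k _ => ?_)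
  have := (pr_prime (T k)).two_le
  nlinarith

theorem log_M_le (K : ℕ) (hK : 2 ≤ K) : Real.log (M K) ≤ 20 * K * Real.log K := by
  unfold M
  push_cast
  rw [Real.log_prod (fun k _ => by
    have := (pr_prime (T k)).pos
    positivity)]
  have hKr : (2 : ℝ) ≤ K := by exact_mod_cast hK
  have hlogK : Real.log 2 ≤ Real.log K := Real.log_le_log (by norm_num) hKr
  have hl2 : (0 : ℝ) < Real.log 2 := Real.log_pos (by norm_num)
  have h1 : ∀ k ∈ Icc 1 K, Real.log ((pr (T k) : ℝ) ^ 2) ≤ 20 * Real.log K := by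
    intro k hk
    obtain ⟨hk1, hk2⟩ := Finset.mem_Icc.mp hk
    have hp0 : (0 : ℝ) < pr (T k) := by exact_mod_cast (pr_prime _).pos
    have h2 := pr_le (T k) (T_pos hk1)
    have h3 : (T k : ℝ) ≤ (K : ℝ) ^ 2 := by
      have : T k ≤ K ^ 2 := (T_le k hk1).trans (Nat.pow_le_pow_left hk2 2)
      exact_mod_cast this
    have hT0 : (0 : ℝ) ≤ T k := Nat.cast_nonneg _
    have h4 : (pr (T k) : ℝ) ≤ (K : ℝ) ^ 10 := by
      have hK2 : (4 : ℝ) ≤ (K : ℝ) ^ 2 := by nlinarith
      have h5 : ((T k : ℝ) + 1) ≤ 5 / 4 * (K : ℝ) ^ 2 := by linarith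
      have h6 : ((T k : ℝ) + 1) ^ 2 ≤ (5 / 4 * (K : ℝ) ^ 2) ^ 2 :=
        pow_le_pow_left₀ (by linarith) h5 2
      have h7 : (16 : ℝ) ≤ (K : ℝ) ^ 4 := by nlinarith
      have h8 : (64 : ℝ) ≤ (K : ℝ) ^ 6 := by
        have : (K : ℝ) ^ 6 = (K : ℝ) ^ 4 * (K : ℝ) ^ 2 := by ring
        rw [this]
        nlinarith
      have h9 : (0 : ℝ) < (K : ℝ) ^ 4 := by positivity
      calc (pr (T k) : ℝ) ≤ 9 * ((T k : ℝ) + 1) ^ 2 := h2
        _ ≤ 9 * (5 / 4 * (K : ℝ) ^ 2) ^ 2 := by linarith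
        _ = (225 / 16) * (K : ℝ) ^ 4 := by ring
        _ ≤ (K : ℝ) ^ 6 * (K : ℝ) ^ 4 := by
            refine mul_le_mul_of_nonneg_right (by linarith) h9.le
        _ = (K : ℝ) ^ 10 := by ring
    have h10 : Real.log (pr (T k)) ≤ 10 * Real.log K := by
      have := Real.log_le_log hp0 h4
      rwa [Real.log_pow, Nat.cast_ofNat] at this
    rw [Real.log_pow]
    push_cast
    linarith
  calc ∑ k ∈ Icc 1 K, Real.log ((pr (T k) : ℝ) ^ 2) ≤ ∑ _k ∈ Icc 1 K, 20 * Real.log K :=
        Finset.sum_le_sum h1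
    _ = 20 * K * Real.log K := by
        rw [Finset.sum_const, Nat.card_Icc]
        simp
        ring

/-- There is a constant `c > 0` such that for all large `x` there is an `n` with `x ≤ n ≤ 2 x` such
that `k ≥ c log n / log log n` for every admissible pair `(k, m)` of `n`. -/
theorem result : ∃ c : ℝ, 0 < c ∧ ∃ X : ℕ, ∀ x : ℕ, X ≤ x → ∃ n : ℕ, x ≤ n ∧ n ≤ 2 * x ∧
    ∀ k m, Admissible n k m → c * Real.log n / Real.log (Real.log n) ≤ k := by
  refine ⟨1 / 81, by norm_num, max 2 (M 2), fun x hx => ?_⟩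
  have hx2 : 2 ≤ x := (le_max_left _ _).trans hx
  have hxM : M 2 ≤ x := (le_max_right _ _).trans hx
  set K := Nat.findGreatest (fun K => M K ≤ x) x with hK
  have hK2 : 2 ≤ K := Nat.le_findGreatest hx2 hxM
  have hMK : M K ≤ x := Nat.findGreatest_spec (P := fun K => M K ≤ x) hx2 hxM
  have h4 := four_pow_le K
  have h5 : K < 4 ^ K := Nat.lt_pow_self (by norm_num)
  have hMK1 : x < M (K + 1) := by
    have := Nat.findGreatest_is_greatest (P := fun K => M K ≤ x) (n := x) (k := K + 1)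
      (by omega) (by omega)
    simpa using this
  obtain ⟨n, h1, h2, h3⟩ := exists_n K x
  refine ⟨n, h1, by omega, fun k m hkm => ?_⟩
  have hkK := h3 k m hkm
  have hKr : (2 : ℝ) ≤ K := by exact_mod_cast hK2
  have hn0 : (0 : ℝ) < n := by
    have : 0 < n := by omega
    exact_mod_cast this
  have hx0 : (0 : ℝ) < x := by
    have : 0 < x := by omega
    exact_mod_cast this
  have hl2 : (0 : ℝ) < Real.log 2 := Real.log_pos (by norm_num)
  have hlogK : Real.log 2 ≤ Real.log K := Real.log_le_log (by norm_num) hKr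
  have hup : Real.log n ≤ 81 * K * Real.log K := by
    have h6 : (n : ℝ) ≤ 2 * x := by
      have : n ≤ 2 * x := by omega
      exact_mod_cast this
    have h7 := Real.log_le_log hn0 h6
    rw [Real.log_mul (by norm_num) hx0.ne'] at h7
    have h8 := log_M_le (K + 1) (by omega)
    have h9 : Real.log x ≤ Real.log (M (K + 1)) :=
      Real.log_le_log hx0 (by exact_mod_cast hMK1.le)
    have h10 : Real.log ((K + 1 : ℕ) : ℝ) ≤ 2 * Real.log K := by
      have e1 : ((K + 1 : ℕ) : ℝ) ≤ (K : ℝ) ^ 2 := by push_cast; nlinarith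
      have e2 := Real.log_le_log (by positivity) e1
      rwa [Real.log_pow, Nat.cast_ofNat] at e2
    have h11 : ((K + 1 : ℕ) : ℝ) ≤ 2 * K := by push_cast; linarith
    have h12 : 20 * ((K + 1 : ℕ) : ℝ) * Real.log ((K + 1 : ℕ) : ℝ) ≤
        20 * (2 * K) * (2 * Real.log K) := by
      have e0 : 0 ≤ Real.log ((K + 1 : ℕ) : ℝ) := Real.log_natCast_nonneg _
      exact mul_le_mul (by linarith) h10 e0 (by linarith)
    have h13 : Real.log K ≤ K * Real.log K := by nlinarith
    linarith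
  have hlow : (K : ℝ) ≤ Real.log n := by
    have h6 : ((4 : ℝ) ^ K) ≤ n := by exact_mod_cast (h4.trans (hMK.trans h1))
    have h7 := Real.log_le_log (by positivity) h6
    rw [Real.log_pow] at h7
    have h8 : (1 : ℝ) ≤ Real.log 4 := by
      have : Real.log 4 = 2 * Real.log 2 := by
        rw [show (4 : ℝ) = 2 * 2 by norm_num, Real.log_mul (by norm_num) (by norm_num)]; ring
      rw [this]
      have := Real.log_two_gt_d9
      norm_num at this
      linarith
    nlinarith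
  have hll : Real.log K ≤ Real.log (Real.log n) := Real.log_le_log (by linarith) hlow
  have hll0 : 0 < Real.log (Real.log n) := by linarith
  rw [div_le_iff₀ hll0]
  have hk : (K : ℝ) ≤ k := by exact_mod_cast hkK.le
  calc 1 / 81 * Real.log n ≤ 1 / 81 * (81 * K * Real.log K) := by linarith
    _ = K * Real.log K := by ring
    _ ≤ k * Real.log (Real.log n) := mul_le_mul hk hll (by linarith) (by linarith)

end Pool.Agent.Results.MP_ed29f8_nt.VeryLate
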